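import Pool.Agent.MP_ee8c61_ag.KV59.Kv
import Pool.Agent.MP_ee8c61_ag.M3E.Spec
import Pool.Agent.MP_ee8c61_ag.M3V.Spec

/-! The vanishing theorem in the forms used by the other blocks. -/

namespace Pool.Agent.MP_ee8c61_ag.KV59

open H59

theorem skvg : M3V.SKVG := by
  intro K ι J n m _ _ _ _ _ S x w ρ μ het h hP hμ g h1 h2
  let _ : LinearOrder ι := LinearOrder.lift' (Fintype.equivFin ι) (Fintype.equivFin ι).injective
  simpa only [kc, jac, mul_assoc] using one_of_van S _ (kv_all het h hP hμ 2 le_rfl) g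
    (by simpa only [kc, jac, mul_assoc] using h1) h2

theorem skvf : M3E.SKVF := by
  intro K ι J n m _ _ _ _ _ S x kk w ρ μ het hr hd hP hμ g h1 h2
  have e : ∀ a (B : Subalgebra ℂ K), S.A a ≤ B → ∀ t : K,
      t * (Matrix.of fun l i => S.D a i (S.r l)).det * (S.mon a (Sys.cl w μ) : Kˣ) ∈ B ↔
        t * (S.mon a (kk + Sys.cl w μ) : Kˣ) ∈ B := fun a B hB t => by
    obtain ⟨U, hU, e⟩ := hd a
    rw [e, (fr _ _ _ _ _ S).mon_add, Units.val_mul, Units.val_mul,
      show ∀ p q r s : K, p * (q * r) * s = q * (p * (r * s)) from fun _ _ _ _ => by ring]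
    exact ⟨fun h => by simpa using mul_mem (hB hU.2) h, mul_mem (hB hU.1)⟩
  obtain ⟨h, h3, h4⟩ := skvg K ι J n m S x w ρ μ het (cl_om hr hd) hP hμ g
    (fun a b => (e a _ le_sup_left _).2 (h1 a b)) h2
  exact ⟨h, fun a => (e a _ le_rfl _).1 (h3 a), h4⟩

end Pool.Agent.MP_ee8c61_ag.KV59
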