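import Pool.Agent.MP_ee8c61_ag.H59.Final

/-!
The proved interface statements of the kit.
-/

namespace Pool.Agent.MP_ee8c61_ag.KV59

open H59

theorem car : SCar := rowCar
theorem cx : SCx := rowCx
theorem cone : SCone := rowCone car cx
theorem filt : SFilt := rowFilt car cx rowFg cone
theorem fo : SFo := rowFo car
theorem fd : SFd := rowFd car fo
theorem la : SLa := rowLa car rowAp fo
theorem det : SDet := rowDet car rowAp fo la
theorem fr : SFr := rowFr car fo fd la
theorem lo : SLo := rowLo fr
theorem lm : SLm := rowLm car cone fo la fr lo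
theorem ho : SHo := rowHo car fo fd la fr lo lm
theorem t1 : ST1 := rowT1 car cone rowFg (rowT1f car cx rowFg) rowT1k
theorem t1g : ST1g := rowT1g fo la fr lo lm
theorem t1s : ST1s := rowT1s car rowFg t1 fo lm t1g
theorem cart : SCart := rowCart fo la fr lo lm (rowCart0 car fo)
theorem mo : SMo := rowMo car fo fd fr lo lm
theorem ph1 : SPh1 := rowPh1 car fo fd fr mo
theorem ph2 : SPh2 := rowPh2 car fo la fr lo lm mo ph1
theorem hara : SHara := rowHara car cx cone filt fd lm ho mo
theorem hm : SHm := rowHm fo la lo lm
theorem redL : SRedL := rowRedL fo fr lo lm hm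
theorem extL : SExtL := rowExtL fo la fr lo lm hm
theorem span : SSpan := rows.Span
theorem reg : SReg := rows.Reg
theorem adm : SAdm := rowAdm fr lo rowVal

end Pool.Agent.MP_ee8c61_ag.KV59
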