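import Pool.Agent.MP_ee8c61_ag.KV59.Serre

/-!
Descent of vanishing along Frobenius in a fixed degree.
-/

namespace Pool.Agent.MP_ee8c61_ag.KV59

open Finset H59 H59.Sys

open TruncX in
/-- The truncation argument in one degree. -/
theorem trunc1 {G G' : Type} [AddCommGroup G] [AddCommGroup G'] (D0 d : Op G) (D' : Op G')
    (L : Lat G) (L' : Lat G') (π : ℤ → Op G) (π' : ℤ → Op G') (Φ : ℕ → G' →+ G) (n : ℕ) (j : ℤ)
    (g : Grading π) (g' : Grading π') (P : Pair (D0 + d) L ⊥) (P' : Pair D' L' ⊥)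
    (h0 : ∀ p, D0 * π p = π p * D0) (h1 : ∀ p, d * π p = π (p + 1) * d)
    (h' : ∀ p, D' * π' p = π' p * D') (k : ∀ p, Keeps (π p) L L) (k' : ∀ p, Keeps (π' p) L' L')
    (hn : ∀ p : ℤ, n < p → π p = 0) (hn' : ∀ p : ℤ, p < 0 ∨ n < p → π' p = 0)
    (hm : ∀ p ≤ n, ∀ j, ∀ x ∈ L' j, π' (p : ℕ) x = x → Φ p x ∈ L j)
    (hc : ∀ p ≤ n, ∀ x, (D0 + d) (Φ p x) = Φ p (D' x))
    (hz : ∀ p ≤ n, ∀ x, ∀ r : ℤ, (p : ℕ) < r → π r (Φ p x) = 0)
    (hs : ∀ p ≤ n, ∀ j, ∀ y ∈ L j, π (p : ℕ) y = y → d y = 0 → ∃ x ∈ L' j, π' (p : ℕ) x = x ∧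
      ∃ w ∈ L (j - 1), π ((p : ℕ) - 1) w = w ∧ y = π (p : ℕ) (Φ p x) + d w)
    (hi : ∀ p ≤ n, ∀ j, ∀ x ∈ L' j, π' (p : ℕ) x = x → ∀ w ∈ L (j - 1), π ((p : ℕ) - 1) w = w →
      π (p : ℕ) (Φ p x) = d w → x = 0)
    (hv : Van (D0 + d) L ⊥ j) : Van D' L' ⊥ j := by
  have cp := comp h0 h1
  have c' : ∀ p x, D' (π' p x) = π' p (D' x) := fun p x => DFunLike.congr_fun (h' p) x
  have key : ∀ p ≤ n, ∀ z ∈ L (j - 1), ∀ x ∈ L' j, π' (p : ℕ) x = x →
      π ((p : ℕ) + 1) z = 0 → π ((p : ℕ) + 1) ((D0 + d) z) = 0 →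
      π (p : ℕ) ((D0 + d) z) = π (p : ℕ) (Φ p x) →
      ∃ x' ∈ L' (j - 1), π' (p : ℕ) x' = x' ∧ x = D' x' ∧ ∃ w ∈ L (j - 1 - 1),
        π ((p : ℕ) - 1) w = w ∧ π (p : ℕ) z = π (p : ℕ) (Φ p x') + d w := by
    intro p hp z hz1 x hx hx' e1 e2 e3
    rw [cp, e1, map_zero, zero_add, add_sub_cancel_right] at e2
    obtain ⟨x', a1, a2, w, a3, a4, a5⟩ := hs p hp (j - 1) _ (k _ _ _ hz1) (idem g _ _) e2
    refine ⟨x', a1, a2, sub_eq_zero.1 (hi p hp j _ (sub_mem hx (P'.stp j a1)) ?_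
      (π (p - 1) (z - Φ p x' - (D0 + d) w)) (k _ _ _ (sub_mem (sub_mem hz1 (hm p hp _ _ a1 a2))
        (P.stp _ a3))) (idem g _ _) ?_), w, a3, a4, a5⟩
    · rw [map_sub, ← c', hx', a2]
    · have b1 : π p (z - Φ p x' - (D0 + d) w) = 0 := by
        rw [map_sub, map_sub, cp, a4, pure g a4 (by omega), a5, map_zero]; abel
      have b2 := cp p (z - Φ p x' - (D0 + d) w)
      rw [b1, map_zero, zero_add, map_sub (D0 + d), map_sub (D0 + d), P.dd', sub_zero,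
        hc p hp] at b2
      rw [← b2, map_sub, map_sub, map_sub, e3]
  intro x hx hd
  have hd0 : D' x = 0 := (mem_lat_bot _ _).1 hd
  have down : ∀ i r : ℕ, r + i = n + 1 → ∃ z ∈ L (j - 1), (∀ s : ℤ, r ≤ s → π s z = 0) ∧
      (D0 + d) z = ∑ p ∈ range r, Φ p (π' p x) ∧
      ∀ p : ℕ, r ≤ p → p ≤ n → π' p x ∈ (L' (j - 1)).map D' := by
    intro i
    induction i with
    | zero =>
      rintro r rfl
      obtain ⟨z, z1, z2⟩ := hv (∑ p ∈ range (n + 1), Φ p (π' p x)) (sum_mem fun p hp =>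
        hm p (Nat.lt_succ_iff.1 (mem_range.1 hp)) j _ (k' _ _ _ hx) (idem g' _ _))
        ((mem_lat_bot _ _).2 (by
          rw [map_sum]
          exact sum_eq_zero fun p hp => by
            rw [hc p (Nat.lt_succ_iff.1 (mem_range.1 hp)), c', hd0, map_zero, map_zero]))
      exact ⟨z, z1, fun s hs => by rw [hn s (by push_cast at hs; omega), op_zero],
        (sub_eq_zero.1 ((mem_lat_bot _ _).1 z2)).symm, fun p h1 h2 => by omega⟩
    | succ i ih =>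
      intro r hr
      have hp : r ≤ n := by omega
      obtain ⟨z, z1, z2, z3, z4⟩ := ih (r + 1) (by omega)
      have e1 : ∀ s : ℤ, (r : ℤ) ≤ s → π s (∑ p ∈ range r, Φ p (π' p x)) = 0 := fun s hs => by
        rw [map_sum]
        exact sum_eq_zero fun p hp' => hz p (by have := mem_range.1 hp'; omega) _ _ (by
          have := mem_range.1 hp'; omega)
      rw [sum_range_succ] at z3
      obtain ⟨x', a1, a2, a0, w, a3, a4, a5⟩ := key r hp z z1 _ (k' _ _ _ hx) (idem g' _ _)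
        (z2 _ (by push_cast; omega))
        (by rw [z3, map_add, e1 _ (by omega), hz r hp _ _ (by omega), add_zero])
        (by rw [z3, map_add, e1 _ le_rfl, zero_add])
      refine ⟨z - Φ r x' - (D0 + d) w, sub_mem (sub_mem z1 (hm r hp _ _ a1 a2)) (P.stp _ a3),
        fun s hs => ?_, ?_, fun p h1 h2 => ?_⟩
      · rw [map_sub, map_sub, cp, pure g a4 (r := s) (by omega), map_zero]
        rcases eq_or_lt_of_le hs with rfl | h4
        · rw [a4, a5]; abel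
        · rw [z2 s (by push_cast; omega), hz r hp x' s h4, pure g a4 (by omega), map_zero]; abel
      · rw [map_sub, map_sub, P.dd', hc r hp, ← a0, z3, sub_zero, add_sub_cancel_right]
      · rcases eq_or_lt_of_le h1 with rfl | h4
        · exact ⟨x', a1, a0.symm⟩
        · exact z4 p h4 h2
  obtain ⟨-, -, -, -, z4⟩ := down (n + 1) 0 (by omega)
  have one : ∀ r, π' r x ∈ (L' (j - 1)).map D' := by
    intro r
    by_cases hr : r < 0 ∨ n < r
    · rw [hn' r hr]; exact zero_mem _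
    · obtain ⟨p, rfl⟩ := Int.eq_ofNat_of_zero_le (show 0 ≤ r by omega)
      exact z4 p (Nat.zero_le _) (by omega)
  obtain ⟨s, -, hs'⟩ := g'.fin x
  obtain ⟨y, y1, y2⟩ : x ∈ (L' (j - 1)).map D' := hs' ▸ sum_mem fun r _ => one r
  exact ⟨y, y1, sub_eq_zero.2 y2.symm⟩

variable {k Ω ι J : Type} {n : ℕ} [CommRing k] [CommRing Ω] [Algebra k Ω] [Fintype J]
  [Fintype ι] [LinearOrder ι] [Inhabited ι] (S : Sys k Ω ι J n) (ℓ : ℕ) [Fact ℓ.Prime] [CharP Ω ℓ]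

omit [Fintype ι] [LinearOrder ι] [Inhabited ι] in
theorem gr_neg : Grading fun w : ℤ => (ev (pd n (-w)) : Op (Ch ι (Fm n Ω))) := by
  have hF := fo Ω n
  refine ⟨fun w w' => ?_, fun x => ⟨Icc (-(n : ℤ)) 0, fun w hw => ?_, ?_⟩⟩
  · show ev (pd n (-w) * pd n (-w')) = _
    rw [hF.pd_gr.orth]
    by_cases h : w = w'
    · rw [if_pos h, if_pos (congrArg Neg.neg h)]
    · rw [if_neg h, if_neg fun h' => h (neg_injective h')]
      rfl
  · rw [hF.pd_out (-w) (by rw [mem_Icc] at hw; omega)]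
    rfl
  · funext σ
    rw [Finset.sum_apply]
    exact Di1X.pd_sum _

omit [Inhabited ι] [Fintype J] in
theorem cech_dd : (cech 0 + od S.dd : Op (Ch ι (Fm n Ω))) = cech S.dd := by
  rw [cech, ← (car _ _).kos_add, zero_add, cech]

omit [Inhabited ι] in
theorem pd_cech (p : ℤ) : (cech 0 : Op (Ch ι (Fm n Ω))) * ev (pd n p) = ev (pd n p) * cech 0 :=
  ((car _ _).kos_ev _ _ _ _ (Commute.zero_right _) fun _ _ => Commute.one_right _).eq.symm

omit [Inhabited ι] [Fintype ι] [LinearOrder ι] in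
theorem pd_keeps (C : Finset (J → ℤ)) (p : ℤ) : Keeps (ev (pd n p)) (S.T C) (S.T C) :=
  fun _ _ hγ => (S.mem_T _ _ _).2 fun σ =>
    (lm k Ω ι J n S).pd C σ p _ _ ((S.mem_T _ _ _).1 hγ σ)

theorem di1 (c c' : J → ℤ) (hc : ∀ j, ℓ * (c j - 1) < c' j ∧ c' j ≤ ℓ * c j) (j : ℤ)
    (h1 : Van (cech 0 : Op (Ch ι (Fm n Ω))) (S.T {c'}) ⊥ j) :
    Pair (cech S.dd) (S.T {ℓ • c}) ⊥ ∧ Van (cech S.dd) (S.T {ℓ • c}) ⊥ j := by
  have F := fo Ω n
  obtain ⟨k1, k2, h3⟩ := hara k Ω ι J n S ℓ (Fin 0) (fun _ => 0) ∅ (fun l _ => l.elim0) c c' hc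
    (j - 1)
  have p1 := k1.pair ∅
  have p2 := k2.pair ∅
  have h3' := ((cone (Fin 0) _).emp _ _ _ _ _).1 h3
  have e1 := cech_dd S
  have h2 := (rowWt _).van (fun w => ev (pd n (-w))) (cech 0) (od S.dd) (S.T {c'}) ⊥ j (-(n : ℤ))
    ⟨gr_neg, e1 ▸ ⟨p1.dd, fun j => (p2.le j).trans (p1.le j), p1.st, p2.st'⟩, fun w => pd_cech _,
      fun w => ?_, fun w => pd_keeps S _ _, fun w => ?_⟩ (fun y _ w hw => by
        rw [F.pd_out (-w) (by omega)]
        exact zero_mem _) h1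
  · rw [e1] at h2
    exact ⟨p2, (cx _).left _ _ _ _ j p1 p2 h2 h3'⟩
  · rw [(car _ _).od_ev, (car _ _).ev_od, Sys.dd, F.pd_dR, show -(w + 1) + 1 = -w by ring]
  · intro j γ h
    rw [mem_lat_bot] at h ⊢
    rw [h, map_zero]

theorem sg1 {M : Type} [AddCommGroup M] (a : ℕ) (v : M) : (-1 : ℤ) ^ a • (-1 : ℤ) ^ a • v = v := by
  rw [smul_smul, ← pow_add, Even.neg_one_pow ⟨a, rfl⟩, one_smul]

open DiX in
/-- Descent along Frobenius. -/
theorem di (δ : ι → Fin n → Ω) (hn : n < ℓ) (fd : S.FD ℓ δ) (lc : Loc S ℓ) (c c' : J → ℤ)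
    (hc : ∀ j, ℓ * (c j - 1) < c' j ∧ c' j ≤ ℓ * c j) (j : ℤ)
    (nv : Van (cech 0 : Op (Ch ι (Fm n Ω))) (S.T {c'}) ⊥ j) :
    Van (cech 0 : Op (Ch ι (Fm n Ω))) (S.T {c}) ⊥ j := by
  have F := fo Ω n
  have L := lm k Ω ι J n S
  have K := cart k Ω ι J n S ℓ lc
  have P1 := ph1 k Ω ι J n S ℓ δ
  have P2 := ph2 k Ω ι J n S ℓ δ fd
  have C1 := car ι (Fm n Ω)
  obtain ⟨p1, hV⟩ := di1 S ℓ c c' hc j nv
  have e := cech_dd S
  have out : ∀ p : ℤ, p < 0 ∨ n < p → (ev (pd n p) : Op (Ch ι (Fm n Ω))) = 0 := fun p h => by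
    rw [F.pd_out p h]
    rfl
  have p2 : Pair (cech 0 : Op (Ch ι (Fm n Ω))) (S.T {c}) ⊥ :=
    L.T_none ▸ L.pair 0 {c} ∅ (mul_zero _) (fun _ h => absurd h (notMem_empty _))
      fun _ _ _ _ _ => zero_mem _
  refine trunc1 (cech 0) (od S.dd) (cech 0) (S.T {ℓ • c}) _ (fun p => ev (pd n p))
    (fun p => ev (pd n p)) (fun p => S.Ph ℓ δ p) n j (gr_ev F.pd_gr) (gr_ev F.pd_gr) (e ▸ p1) p2
    (fun p => pd_cech p) (fun p => ?_) (fun p => pd_cech p) (pd_keeps S _) (pd_keeps S _)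
    (fun p h => out p (Or.inr h)) out (fun p _ j y hy h => P2.mem p c _ _ hy h) (fun p _ y => ?_)
    (fun p _ y r h => DFunLike.congr_fun (P1.deg p r h) y)
    (fun p hp j y hy h h' => ?_) (fun p hp j y hy h w hw _ h' => ?_) (e ▸ hV)
  · rw [C1.od_ev, C1.ev_od]
    exact congrArg od (F.pd_dR _ p)
  · rw [e]
    exact DFunLike.congr_fun (P1.chain p) y
  · choose u h1 h2 w h3 h4 h5 using fun σ => surj F L K (hp.trans_lt hn) c σ _ (y σ)
      ((S.mem_T _ _ _).1 hy σ) (congrFun h σ) (by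
        have : (-1 : ℤ) ^ σ.card • S.dd (y σ) = 0 := congrFun h' σ
        rw [← sg1 σ.card (S.dd _), this, smul_zero])
    have hu : ev (pd n p) u = u := funext h2
    refine ⟨u, (S.mem_T _ _ _).2 h1, hu, fun σ => (-1 : ℤ) ^ σ.card • w σ,
      (S.mem_T _ _ _).2 fun σ => zsmul_mem ?_ _, funext fun σ => ?_, funext fun σ => ?_⟩
    · rw [show j - 1 - σ.card = j - σ.card - 1 by ring]
      exact h3 σ
    · rw [ev_apply, map_zsmul, h4]
    · change _ = pd n p (S.Ph ℓ δ p u σ) + (-1 : ℤ) ^ σ.card • S.dd _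
      rw [map_zsmul, sg1, P2.lead p _ hu, ← h5]
  · funext σ
    refine inj L K (hp.trans_lt hn) c σ _ _ _ _ ((S.mem_T _ _ _).1 hy σ) (zsmul_mem
      ((S.mem_T _ _ _).1 hw σ) ((-1) ^ σ.card)) ?_
    rw [map_zsmul, ← P2.lead p _ h]
    exact congrFun h' σ

open NVlX in
/-- The vanishing theorem in characteristic `ℓ`. -/
theorem dvl {F ι J : Type} {n m : ℕ} (ℓ : ℕ) [CommRing F] [hp : Fact ℓ.Prime]
    [Algebra (ZMod ℓ) F] [Fintype J] [Fintype ι] [LinearOrder ι] [Inhabited ι]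
    (S : Sys (ZMod ℓ) F ι J n) (x : Fin m → F) (w : J → ℤ) (ρ : ι → Fˣ) (μ : ℕ)
    (δ : ι → Fin n → F) (hn : n < ℓ) (hμ : 0 < μ) (good : S.Good) (pol : S.Pol x w ρ)
    (fd : S.FD ℓ δ) (j : ℤ) (hj : (n : ℤ) + 2 ≤ j) :
    Van (cech 0 : Op (Ch ι (Fm n F))) (S.T {1 - cl w μ}) ⊥ j := by
  rcases subsingleton_or_nontrivial F with hF | hF
  · intro y _ _
    refine ⟨0, zero_mem _, ?_⟩
    rw [Subsingleton.elim (y - _) 0]
    exact zero_mem _
  have : CharP F ℓ := charP_of_injective_algebraMap (algebraMap (ZMod ℓ) F).injective ℓ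
  obtain ⟨h1, h2, h3⟩ := span F ι J n ℓ S good
  have loc : Loc S ℓ := ⟨h1, h2, h3⟩
  choose d0 hd0 using fun r : ℕ => serre good.fg pol (1 - cl (r • w) μ)
  obtain ⟨e, r, d, he, hd⟩ := exists_pow ℓ μ hp.out.one_lt hμ fun r => (d0 r).toNat
  have top : Van (cech 0 : Op (Ch ι (Fm n F))) (S.T {1 - cl (ℓ ^ e • w) μ}) ⊥ j := by
    rw [he, cl_add w μ hμ, ← sub_sub, ← natCast_zsmul w d]
    exact hd0 r d (by omega) j hj
  have down : ∀ e : ℕ, Van (cech 0 : Op (Ch ι (Fm n F))) (S.T {1 - cl (ℓ ^ e • w) μ}) ⊥ j →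
      Van (cech 0 : Op (Ch ι (Fm n F))) (S.T {1 - cl w μ}) ⊥ j := by
    intro e
    induction e with
    | zero => intro h; rwa [pow_zero, one_smul] at h
    | succ e ih =>
      intro h
      refine ih (di S ℓ δ hn fd loc _ _ (fun i => ?_) j h)
      obtain ⟨a1, a2⟩ := cl_step w μ ℓ e hp.out.pos i
      simp only [Pi.sub_apply, Pi.one_apply]
      constructor <;> linarith
  exact down e top

end Pool.Agent.MP_ee8c61_ag.KV59
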