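import Pool.Agent.MP_ee8c61_ag.KV59.Tr
import Pool.Agent.MP_ee8c61_ag.H95G.RES

/-! The vanishing theorem for the canonical sheaf twisted by the round-up of an ample divisor. -/

namespace Pool.Agent.MP_ee8c61_ag.KV59

open Finset H59 H59.Sys H95G.RESA

section Dom

variable {k Ω ι J : Type} {n m : ℕ} [CommRing k] [CommRing Ω] [Algebra k Ω]

/-- The functions `g` with `g * u a` regular on the intersection of the charts in `σ`. -/
def Ou (S : Sys k Ω ι J n) (u : ι → Ω) (σ : Finset ι) : AddSubgroup Ω where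
  carrier := {g | (σ = ∅ → g = 0) ∧ ∀ a ∈ σ, g * u a ∈ S.AA σ}
  zero_mem' := ⟨fun _ => rfl, fun a _ => by rw [zero_mul]; exact zero_mem _⟩
  add_mem' := fun {g h} hg hh => ⟨fun e => by rw [hg.1 e, hh.1 e, add_zero], fun a ha => by
    rw [add_mul]; exact add_mem (hg.2 a ha) (hh.2 a ha)⟩
  neg_mem' := fun {g} hg => ⟨fun e => by rw [hg.1 e, neg_zero], fun a ha => by
    rw [neg_mul]; exact neg_mem (hg.2 a ha)⟩

/-- The Cech complex; cochains on `p` charts have degree `p`. -/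
def CO (S : Sys k Ω ι J n) (u : ι → Ω) : Lat (Ch ι Ω) := lat fun σ => deg0 (Ou S u σ)

theorem mem_CO {S : Sys k Ω ι J n} {u : ι → Ω} {p : ℤ} {γ : Ch ι Ω} :
    γ ∈ CO S u p ↔ ∀ σ, γ σ ∈ Ou S u σ ∧ ((σ.card : ℤ) ≠ p → γ σ = 0) := by
  rw [CO, mem_lat]
  refine forall_congr' fun σ => ?_
  rw [mem_deg0, sub_ne_zero, ne_comm]

/-- The Jacobian determinant of a chart. -/
def jac (S : Sys k Ω ι J n) (a : ι) : Ω := (Matrix.of fun l i => S.D a i (S.r l)).det

variable [Fintype J]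

/-- The local equations of the canonical divisor plus `c`. -/
def kc (S : Sys k Ω ι J n) (c : J → ℤ) (a : ι) : Ω := jac S a * (S.mon a c : Ωˣ)

theorem top_iff (S : Sys k Ω ι J n) (c : J → ℤ) (σ : Finset ι) (g : Ω) :
    top n g ∈ S.lm {1 - c} σ n ↔ g ∈ Ou S (kc S c) σ := by
  have LS := lm _ _ _ _ _ S
  have L0 := lo _ _ _ _ _ S
  have R := fr _ _ _ _ _ S
  have F := fo Ω n
  have key : ∀ a ∈ σ, top n g ∈ S.lm {1 - c} σ n ↔ g * kc S c a ∈ S.AA σ := by
    intro a ha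
    have e : (Matrix.of fun l i => S.D a i (S.r l)).det = jac S a * S.mon a 0 := by simp [mon, jac]
    have e1 : jac S a * g * S.mon a (0 + 1) * ((S.mon a (1 - c))⁻¹ : Ωˣ) = g * kc S c a := by
      rw [show 0 + 1 = c + (1 - c) by abel, R.mon_add a c, Units.val_mul,
        ← mul_assoc, Units.mul_inv_cancel_right, kc]
      ring
    rw [LS.mem _ _ a ha, EtaX.crd_top det R e, ← e1, ← L0.mem_one]
    exact ⟨fun h => by simpa [top] using ((F.mem_fl _ _ _).1 h).1 univ, EtaX.top_mem F⟩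
  rcases σ.eq_empty_or_nonempty with rfl | ⟨a, ha⟩
  · rw [LS.emp]
    exact ⟨fun h => ⟨fun _ => by simpa [top] using congrFun ((mem_lat_bot _ _).1 h) univ, by simp⟩,
      fun h => by rw [h.1 rfl, top, Pi.single_zero]; exact zero_mem _⟩
  · exact ⟨fun h => ⟨fun e => absurd (e ▸ ha) (notMem_empty a), fun b hb => (key b hb).1 h⟩,
      fun h => (key a ha).2 (h.2 a ha)⟩

theorem van_top [Fintype ι] [LinearOrder ι] (S : Sys k Ω ι J n)
    (c : J → ℤ) (p : ℤ) (h : Van (cech 0 : Op (Ch ι (Fm n Ω))) (S.T {1 - c}) ⊥ (n + p)) :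
    Van (cech 0 : Op (Ch ι Ω)) (CO S (kc S c)) ⊥ p := by
  have LS := lm _ _ _ _ _ S
  intro γ h1 h2
  rw [mem_CO] at h1
  let t : Ω →+ Fm n Ω := AddMonoidHom.single (fun _ : Finset (Fin n) => Ω) univ
  let e : Fm n Ω →+ Ω := Pi.evalAddMonoidHom (fun _ : Finset (Fin n) => Ω) univ
  have ht := (car ι Ω).up_kos _ t 0 0 (fun _ => 1) (fun _ => 1) univ (fun _ => map_zero _)
    (fun _ _ _ => rfl) γ
  obtain ⟨y, h3, h4⟩ := h (up t γ) ((S.mem_T _ _ _).2 fun σ => by
    by_cases h5 : (σ.card : ℤ) = p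
    · rw [← h5, add_sub_cancel_right]
      exact (top_iff S c σ _).2 (h1 σ).1
    · change t (γ σ) ∈ _
      rw [(h1 σ).2 h5, map_zero]
      exact zero_mem _) ((mem_lat_bot _ _).2 (by
    rw [cech, ← ht, ← cech, (mem_lat_bot _ _).1 h2, map_zero]))
  have h5 := (S.mem_T _ _ _).1 h3
  have h6 : ∀ σ : Finset ι, (σ.card : ℤ) ≠ p - 1 → y σ univ = 0 := fun σ h7 => by
    rw [← LS.pure _ _ _ _ (h5 σ)]
    change (if ((univ : Finset (Fin n)).card : ℤ) = _ then (1 : Op Ω) else 0) _ = 0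
    rw [if_neg (by rw [card_univ, Fintype.card_fin]; omega)]
    rfl
  refine ⟨up e y, mem_CO.2 fun σ => ⟨?_, h6 σ⟩, (mem_lat_bot _ _).2 ?_⟩
  · change y σ univ ∈ _
    by_cases h7 : (σ.card : ℤ) = p - 1
    · have h8 := h5 σ
      rw [h7, show (n : ℤ) + p - 1 - (p - 1) = n by ring] at h8
      rw [← top_iff S, ← (fo Ω n).pd_top, LS.pure _ _ _ _ h8]
      exact h8
    · rw [h6 σ h7]
      exact zero_mem _
  · rw [cech, ← (car ι _).up_kos _ e 0 0 (fun _ => 1) (fun _ => 1) univ (fun _ => map_zero _)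
      (fun _ _ _ => rfl) y, ← cech, ← sub_eq_zero.1 ((mem_lat_bot _ _).1 h4), sub_eq_zero]
    funext σ
    exact (Pi.single_eq_same (M := fun _ : Finset (Fin n) => Ω) univ (γ σ)).symm

end Dom

section Fld

variable {K ι J : Type} {n m : ℕ} [Field K] [Algebra ℂ K] [Fintype J] {S : Sys ℂ K ι J n}
  {kk : J → ℤ} {Om : Subalgebra ℂ K}

theorem R_mem (hA : ∀ a, S.A a ≤ Om) (hη : ∀ a j, S.η a j ∈ UU Om) (hr : ∀ c l, S.r l ∈ S.A c)
    (hd : ∀ c, ∃ U : Kˣ, S.IsU c U ∧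
      (Matrix.of fun l i => S.D c i (S.r l)).det = ((U * S.mon c kk : Kˣ) : K))
    (c : ι) (l : Fin n) (g : K) (hg : g ∈ S.A c) : S.R l g ∈ Om := by
  obtain ⟨U, hU, hd⟩ := hd c
  set M : Matrix (Fin n) (Fin n) K := Matrix.of fun l i => S.D c i (S.r l) with hMd
  let M' : Matrix (Fin n) (Fin n) Om :=
    Matrix.of fun l i => ⟨S.D c i (S.r l), hA c (S.D_mem c i _ (hr c l))⟩
  have h1 : ∀ i l, M.adjugate i l ∈ Om := fun i l => by
    have e : M = Om.val.mapMatrix M' := rfl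
    rw [e, ← AlgHom.map_adjugate]
    exact (M'.adjugate i l).2
  have h2 : Matrix.vecMul (fun l => S.R l g) M = fun i => S.D c i g := by
    funext i
    rw [S.D_R c i g]
    simp only [Matrix.vecMul, dotProduct, hMd, Matrix.of_apply, mul_comm]
  have h3 : M.det * S.R l g = ∑ i, S.D c i g * M.adjugate i l := by
    have e := congrFun (Matrix.vecMul_vecMul (fun l => S.R l g) M M.adjugate) l
    rw [h2, Matrix.mul_adjugate, Matrix.vecMul_smul, Matrix.vecMul_one] at e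
    exact e.symm
  have h4 : M.det * S.R l g ∈ Om := by
    rw [h3]
    exact sum_mem fun i _ => mul_mem (hA c (S.D_mem c i g hg)) (h1 i l)
  rw [hd] at h4
  exact cancel (mul_mem (isU_mem hA hU) (mon_mem hη c kk)) h4

theorem cl_om [Nonempty ι] (hr : ∀ c l, S.r l ∈ S.A c)
    (hd : ∀ c, ∃ U : Kˣ, S.IsU c U ∧
      (Matrix.of fun l i => S.D c i (S.r l)).det = ((U * S.mon c kk : Kˣ) : K)) :
    H95G.RESA.Cl S (om S) := by
  have hA : ∀ a, S.A a ≤ om S := fun a g hg => Algebra.subset_adjoin (Or.inl ⟨a, hg⟩)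
  have hη : ∀ a j, S.η a j ∈ UU (om S) := fun a j =>
    ⟨hA a (η_in S a j), Algebra.subset_adjoin (Or.inr ⟨a, j, rfl⟩)⟩
  have hR : ∀ l, ∀ g ∈ om S, S.R l g ∈ om S := fun l g hg => by
    induction hg using Algebra.adjoin_induction with
    | mem g hg =>
      rcases hg with ⟨c, hg⟩ | ⟨c, j, rfl⟩
      · exact R_mem hA hη hr hd c l g hg
      · rw [Units.val_inv_eq_inv_val, Derivation.leibniz_inv, smul_eq_mul,
          ← Units.val_inv_eq_inv_val]
        exact mul_mem (neg_mem (pow_mem (inv_mem' (hη c j)) 2))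
          (R_mem hA hη hr hd c l _ (η_in S c j))
    | algebraMap t => rw [Derivation.map_algebraMap]; exact zero_mem _
    | add g g' _ _ h1 h2 => rw [map_add]; exact add_mem h1 h2
    | mul g g' hg hg' h1 h2 =>
      rw [Derivation.leibniz, smul_eq_mul, smul_eq_mul]
      exact add_mem (mul_mem hg h2) (mul_mem hg' h1)
  refine ⟨hA, hη, fun l => hA (Classical.arbitrary ι) (hr _ l), hR, fun c i g hg => ?_⟩
  rw [S.D_R]
  exact sum_mem fun l _ => mul_mem (hA c (S.D_mem c i _ (hr c l))) (hR l g hg)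

omit [Fintype J] in
theorem AA_map (h : H95G.RESA.Cl S Om) (σ : Finset ι) :
    ((sys h).AA σ).map Om.val = S.AA σ := by
  rw [AA, AA, (Subalgebra.gc_map_comap Om.val).l_iSup₂]
  exact iSup_congr fun a => iSup_congr fun _ =>
    Subalgebra.map_comap_eq_self ((h.A a).trans Om.range_val.ge)

theorem kc_coe (h : H95G.RESA.Cl S Om) (c : J → ℤ) (a : ι) :
    ((kc (sys h) c a : Om) : K) = kc S c a := by
  rw [kc, kc, MulMemClass.coe_mul, coe_up, up_mon]
  exact congrArg (· * _) (Om.val.map_det _)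

theorem Ou_iff (h : H95G.RESA.Cl S Om) (c : J → ℤ) (σ : Finset ι) (g : Om) :
    g ∈ Ou (sys h) (kc (sys h) c) σ ↔ (g : K) ∈ Ou S (kc S c) σ := by
  refine and_congr (by simp) (forall₂_congr fun a _ => ?_)
  rw [← AA_map h, ← kc_coe h, ← MulMemClass.coe_mul]
  exact ⟨fun h1 => ⟨_, h1, rfl⟩, fun ⟨t, h1, h2⟩ => (Subtype.ext h2 : t = _) ▸ h1⟩

theorem jac_inv (h : H95G.RESA.Cl S Om) (a : ι) : ∃ t ∈ Om, jac S a * t = 1 := by
  refine ⟨_, ((Matrix.of fun i l => (sys h).R l ((sys h).z a i)).det).2, ?_⟩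
  have e : (((Matrix.of fun i l => (sys h).R l ((sys h).z a i)).det : Om) : K) =
      (Matrix.of fun i l => S.R l (S.z a i)).det := Om.val.map_det _
  rw [e, jac, ← Matrix.det_mul, ← Matrix.det_one (n := Fin n)]
  congr 1
  ext l l'
  rw [Matrix.mul_apply, Matrix.one_apply, eq_comm]
  have := (fr _ _ _ _ _ S).R_D a l' (S.r l)
  rw [S.R_r] at this
  simpa only [Matrix.of_apply, mul_comm, eq_comm] using this

theorem Ou_mem (h : H95G.RESA.Cl S Om) {c : J → ℤ} {σ : Finset ι} {g : K}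
    (hg : g ∈ Ou S (kc S c) σ) : g ∈ Om := by
  rcases σ.eq_empty_or_nonempty with rfl | ⟨a, ha⟩
  · rw [hg.1 rfl]
    exact zero_mem _
  · refine cancel (mon_mem h.η a c) ?_
    obtain ⟨t, h1, h2⟩ := jac_inv h a
    have := mul_mem ((iSup₂_le fun b _ => h.A b : S.AA σ ≤ Om) (hg.2 a ha)) h1
    rwa [show g * kc S c a * t = S.mon a c * g * (jac S a * t) by rw [kc]; ring, h2,
      mul_one] at this

/-- Vanishing in all positive degrees (`p` is the number of charts). -/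
theorem kv_all [Fintype ι] [Nonempty ι] [LinearOrder ι] {x : Fin m → K} {w : J → ℤ} {ρ : ι → Kˣ}
    {μ : ℕ} (het : ∀ a, (S.zh a).toRingHom.Etale) (h : H95G.RESA.Cl S (om S)) (hP : S.Pol x w ρ)
    (hμ : 0 < μ) (p : ℤ) (hp : 2 ≤ p) :
    Van (cech 0 : Op (Ch ι K)) (CO S (kc S (cl w μ))) ⊥ p := by
  intro γ h1 h2
  have hx : ∀ l, x l ∈ om S := fun l => h.A (Classical.arbitrary ι) (hP.x_mem _ l)
  have h3 := van_top (sys h) (cl w μ) p (dv (sys h) _ w _ μ
      ⟨fun c => fg_of_et _ c (et_sys h c (het c)), fun c => et_sys h c (het c), gen_om h⟩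
      (pol_sys h hP hx) hμ _ (by omega))
  rw [mem_CO] at h1
  let φ : om S →+ K := ((om S).val : om S →+* K)
  have hφ := (car ι (om S)).up_kos _ φ 0 0 (fun _ => 1) (fun _ => 1) univ (fun _ => map_zero _)
    fun _ _ _ => rfl
  obtain ⟨y, h4, h5⟩ := h3 (fun σ => ⟨γ σ, Ou_mem h (h1 σ).1⟩)
    (mem_CO.2 fun σ => ⟨(Ou_iff h _ _ _).2 (h1 σ).1, fun e => Subtype.ext ((h1 σ).2 e)⟩)
    ((mem_lat_bot _ _).2 (funext fun σ => Subtype.ext
      ((congrFun (hφ _) σ).trans (congrFun ((mem_lat_bot _ _).1 h2) σ))))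
  rw [mem_CO] at h4
  refine ⟨H59.up φ y, mem_CO.2 fun σ => ⟨(Ou_iff h _ _ _).1 (h4 σ).1, fun e =>
    congrArg Subtype.val ((h4 σ).2 e)⟩, (mem_lat_bot _ _).2 ?_⟩
  rw [cech, ← hφ, ← cech, ← sub_eq_zero.1 ((mem_lat_bot _ _).1 h5)]
  exact sub_self _

end Fld

section One

variable {k Ω ι J : Type} {n : ℕ} [CommRing k] [CommRing Ω] [Algebra k Ω] [Fintype ι]
  [LinearOrder ι]

theorem cech_apply (y : Ch ι Ω) (σ : Finset ι) :
    (cech 0 : Op (Ch ι Ω)) y σ = ∑ i ∈ σ, sgn i σ • y (σ.erase i) := by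
  rw [cech, (car ι Ω).kos_apply, univ_inter, op_zero, smul_zero, zero_add]
  rfl

theorem cech_two (y : Ch ι Ω) {a b : ι} (h : a < b) :
    (cech 0 : Op (Ch ι Ω)) y {a, b} = y {b} - y {a} := by
  rw [cech_apply, sum_pair h.ne, erase_insert (by simpa using h.ne), pair_comm a b,
    erase_insert (by simpa using h.ne')]
  simp [sgn, filter_insert, filter_singleton, h, h.not_gt, sub_eq_add_neg]

/-- The first cohomology in explicit form. -/
theorem one_of_van (S : Sys k Ω ι J n) (u : ι → Ω) (hV : Van (cech 0 : Op (Ch ι Ω)) (CO S u) ⊥ 2)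
    (g : ι → ι → Ω) (h1 : ∀ a b, g a b * u a ∈ S.A a ⊔ S.A b)
    (h2 : ∀ a b c, g a b + g b c = g a c) :
    ∃ h : ι → Ω, (∀ a, h a * u a ∈ S.A a) ∧ ∀ a b, g a b = h a - h b := by
  rcases isEmpty_or_nonempty ι with hι | ⟨⟨a₀⟩⟩
  · exact ⟨fun _ => 0, fun a => hι.elim a, fun a => hι.elim a⟩
  let η : Ch ι Ω := fun σ => if σ.card = 1 then ∑ a ∈ σ, g a a₀ else 0
  have e1 : ∀ a, η {a} = g a a₀ := fun a => by simp [η]
  have e2 : ∀ a b, g a b = η {a} - η {b} := fun a b => by rw [e1, e1, ← h2 a b a₀, add_sub_cancel_right]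
  have e3 : ∀ σ : Finset ι, (σ.card : ℤ) ≠ 2 → (cech 0 : Op (Ch ι Ω)) η σ = 0 := fun σ h => by
    rw [cech_apply]
    refine sum_eq_zero fun i hi => ?_
    have := card_erase_add_one hi
    rw [show η (σ.erase i) = 0 from if_neg (by omega), smul_zero]
  have e4 : ∀ a b, S.AA {a, b} = S.A a ⊔ S.A b := fun a b => by simp [AA, iSup_or, iSup_sup_eq]
  obtain ⟨y, h3, h4⟩ := hV ((cech 0 : Op (Ch ι Ω)) η) (mem_CO.2 fun σ => ⟨by
    by_cases h : (σ.card : ℤ) = 2
    · obtain ⟨a, b, hab, rfl⟩ : ∃ a b, a < b ∧ σ = {a, b} := by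
        obtain ⟨a, b, hab, rfl⟩ := card_eq_two.1 (by exact_mod_cast h : σ.card = 2)
        rcases lt_or_gt_of_ne hab with h | h
        exacts [⟨a, b, h, rfl⟩, ⟨b, a, h, pair_comm a b⟩]
      refine ⟨fun e => absurd e (insert_ne_empty _ _), fun c hc => ?_⟩
      rw [cech_two _ hab, e4]
      rcases mem_insert.1 hc with rfl | hc
      · rw [← neg_sub, ← e2, neg_mul]
        exact neg_mem (h1 _ _)
      · rw [mem_singleton.1 hc, ← e2, sup_comm]
        exact h1 _ _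
    · rw [e3 σ h]
      exact zero_mem _, e3 σ⟩) ((mem_lat_bot _ _).2 (DFunLike.congr_fun ((car ι Ω).kos_sq 0 _ univ
        (mul_zero _) (fun _ _ => Commute.one_left _) fun _ _ _ _ => Commute.refl _) η))
  have h5 : ∀ a b, a < b → η {a} - η {b} = y {a} - y {b} := fun a b h => by
    have := congrFun (sub_eq_zero.1 ((mem_lat_bot _ _).1 h4)) {a, b}
    rw [cech_two _ h, cech_two _ h] at this
    linear_combination -this
  refine ⟨fun a => y {a}, fun a => ?_, fun a b => ?_⟩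
  · simpa [AA] using ((mem_CO.1 h3 {a}).1).2 a (mem_singleton_self a)
  · rw [e2]
    rcases lt_trichotomy a b with h | rfl | h
    · exact h5 a b h
    · simp
    · linear_combination -h5 b a h

end One

end Pool.Agent.MP_ee8c61_ag.KV59
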