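import Pool.Agent.MP_ee8c61_ag.KV59.Base

/-!
Vanishing of the higher Cech cohomology for very positive twists.
-/

namespace Pool.Agent.MP_ee8c61_ag.KV59

open Finset H59 H59.Sys

section Free

variable {R ι κ : Type} [CommRing R] [Fintype ι] [LinearOrder ι]

open T1fX in
theorem free_van (e : κ → ℤ) (d : ℤ) (hd : ∀ i, e i < d) (j : ℤ) :
    Van (cech 0) (T1X.AL (fY R κ ι) (fB R κ ι) e d) ⊥ j := by
  classical
  have C := car ι (κ × (ι → ℤ) →₀ R)
  intro x hx hD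
  rw [mem_lat_bot] at hD
  rw [mem_lat] at hx
  simp only [mem_deg0, mem_gsp] at hx
  let P : ι → Op (κ × (ι → ℤ) →₀ R) := fun a => pr fun p => 0 ≤ p.2 a ∧ ∀ b < a, p.2 b < 0
  refine ⟨∑ a, io a (ev (P a) x), sum_mem fun a _ => (mem_lat _ _ _).2 fun σ => ?_,
    (mem_lat_bot _ _).2 ?_⟩
  · rw [io_apply]
    split_ifs with ha
    · exact zero_mem _
    refine zsmul_mem ?_ _
    rw [ev_apply, mem_deg0, mem_gsp]
    refine ⟨fun p hp => ?_, fun h => ?_⟩
    · obtain ⟨h1, h2⟩ := pr_ne hp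
      obtain ⟨h3, h4⟩ := (hx _).1 p h2
      refine ⟨fun b hb => ?_, h4⟩
      by_cases h5 : b = a
      · exact h5 ▸ h1.1
      · exact h3 b fun h6 => (mem_insert.1 h6).elim h5 hb
    · rw [(hx _).2 fun h1 => h (by rw [card_insert_of_notMem ha] at h1; push_cast at h1; omega),
        map_zero]
  · have h1 : ∀ a, (cech 0 : Op (Ch ι (κ × (ι → ℤ) →₀ R))) (io a (ev (P a) x)) = ev (P a) x := by
      intro a
      have h2 := DFunLike.congr_fun (C.kos_io 0 (fun _ => 1) univ a) (ev (P a) x)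
      have h3 := DFunLike.congr_fun (C.kos_ev 0 (P a) (fun _ => 1) univ (Commute.zero_right _)
        fun _ _ => Commute.one_right _).eq x
      rw [op_mul, op_mul] at h3
      rw [if_pos (mem_univ a), op_add, op_mul, op_mul, ← h3] at h2
      rw [cech] at hD
      rw [hD, map_zero, map_zero, add_zero] at h2
      exact h2
    rw [map_sum, sum_congr rfl fun a _ => h1 a]
    funext σ
    have h2 := pr_sum (x σ)
    have h3 : pr (fun p : κ × (ι → ℤ) => ∀ a, p.2 a < 0) (x σ) = 0 := by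
      ext p
      by_contra hp
      obtain ⟨h4, h5⟩ := pr_ne hp
      have h6 := ((hx σ).1 p h5).2
      have h7 : ∑ a, p.2 a ≤ 0 := sum_nonpos fun a _ => (h4 a).le
      have := hd p.1
      omega
    rw [h3, add_zero] at h2
    simp only [Pi.sub_apply, Finset.sum_apply, ev_apply, Pi.zero_apply]
    exact sub_eq_zero.2 h2.symm

open T1X in
theorem aug_van [IsNoetherianRing R] (N : ℕ) :
    ∀ (κ V : Type) [Fintype κ] [AddCommGroup V] [Module R V]
      (Y : Multiplicative (ι → ℤ) →* Module.End R V) (g : κ → V) (e : κ → ℤ),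
      ∃ d0 : ℤ, ∀ d ≥ d0, ∀ j : ℤ, (Fintype.card ι : ℤ) < j + N →
        Van (cech 0) (AL Y g e d) ⊥ j := by
  induction N with
  | zero =>
    intro κ V _ _ _ Y g e
    refine ⟨0, fun d _ j h x hx _ => ⟨0, zero_mem _, ?_⟩⟩
    have : x = 0 := funext fun σ => (((mem_AL Y g e d j x).1 hx) σ).2 (by
      have := σ.card_le_univ
      omega)
    simp [this]
  | succ N ih =>
    intro κ V _ _ _ Y g e
    obtain ⟨r, z, e', hz⟩ := rowT1k R ι κ V Y (ph Y g) e (ph_fY Y g)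
    obtain ⟨d1, h1⟩ := ih _ _ (fY R κ ι) z e'
    obtain ⟨B, hB⟩ := (Set.finite_range e).bddAbove
    refine ⟨max d1 (B + 1), fun d hd j h => ?_⟩
    have hd1 : d1 ≤ d := (le_max_left _ _).trans hd
    have hd2 : B + 1 ≤ d := (le_max_right _ _).trans hd
    have p1 : Pair (cech 0) (AL (fY R κ ι) (fB R κ ι) e d) (AL (fY R κ ι) z e' d) :=
      pair cone (fun σ => deg0_mono (hz d σ ▸ inf_le_left)) (gsp_mono _ _ _ _) (gsp_mono _ _ _ _)
    have f1 := (cx _).right _ _ _ _ j p1 (pair_bot cone (gsp_mono _ _ _ _))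
      (free_van e d (fun i => by have := hB ⟨i, rfl⟩; omega) j) (h1 d hd1 (j + 1) (by omega))
    have := ((cx _).tr (Ch ι V) (up (ph Y g).toAddMonoidHom) _ (cech 0) _ _ (AL Y g e d) ⊥ 0 1 p1
      (pair_bot cone (gsp_mono _ _ _ _)) (fun j x hx => ?_) (fun j y hy => ?_)
      (fun j x hx => ?_) (fun j x _ => ?_) j).1 f1
    · rwa [add_zero] at this
    · rw [add_zero, mem_AL]
      exact fun σ => ⟨(mem_gsp Y g e d σ _).2 ⟨_, ((mem_AL _ _ _ _ _ _).1 hx σ).1, rfl⟩,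
        fun h0 => by rw [up_apply, ((mem_AL _ _ _ _ _ _).1 hx σ).2 h0, map_zero]⟩
    · rw [add_zero, mem_AL] at hy
      choose x h1 h2 using fun σ => (mem_gsp Y g e d σ _).1 (hy σ).1
      refine ⟨fun σ => if j - σ.card = 0 then x σ else 0, (mem_AL _ _ _ _ _ _).2 fun σ =>
        ⟨?_, fun h0 => if_neg h0⟩, (mem_lat_bot _ _).2 (funext fun σ => ?_)⟩
      · split_ifs
        exacts [h1 σ, zero_mem _]
      · rw [Pi.sub_apply, up_apply]
        split_ifs with h0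
        · exact sub_eq_zero.2 (h2 σ).symm
        · rw [map_zero, (hy σ).2 h0, sub_zero, Pi.zero_apply]
    · rw [mem_lat_bot, mem_AL, funext_iff]
      refine forall_congr' fun σ => ?_
      rw [hz, AddSubgroup.mem_inf]
      have := (mem_AL _ _ _ _ _ _).1 hx σ
      exact ⟨fun h0 => ⟨⟨this.1, h0⟩, this.2⟩, fun h0 => h0.1.2⟩
    · rw [Units.val_one, one_smul]
      exact (car ι (κ × (ι → ℤ) →₀ R)).up_kos V (ph Y g).toAddMonoidHom 0 0 (fun _ => 1)
        (fun _ => 1) univ (fun _ => map_zero _) (fun _ _ _ => rfl) x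

variable {V : Type} [AddCommGroup V] [Module R V]

open T1X in
/-- Vanishing for finitely generated graded modules. -/
theorem gr_van [IsNoetherianRing R] [Fintype κ] (Y : Multiplicative (ι → ℤ) →* Module.End R V)
    (g : κ → V) (e : κ → ℤ) : ∃ d0 : ℤ, ∀ d ≥ d0, ∀ j : ℤ, 2 ≤ j → Van (cech 0)
      (lat fun σ : Finset ι => if σ = ∅ then ⊥ else deg0 (gsp R Y g e d σ)) ⊥ j := by
  obtain ⟨d0, h⟩ := aug_van (R := R) (ι := ι) (Fintype.card ι) κ V Y g e
  refine ⟨d0, fun d hd j hj x hx hD => ?_⟩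
  obtain ⟨y, hy, e1⟩ := h d hd j (by omega) x ((mem_lat _ _ _).2 fun σ => by
    have := (mem_lat _ _ _).1 hx σ
    split_ifs at this with h0
    · rw [(mem_lat_bot _ _).1 this]
      exact zero_mem _
    · exact this) hD
  refine ⟨y, (mem_lat _ _ _).2 fun σ => ?_, e1⟩
  split_ifs with h0
  · subst h0
    exact (mem_lat_bot _ _).2 (((mem_AL _ _ _ _ _ _).1 hy ∅).2 (by simp; omega))
  · exact (mem_lat _ _ _).1 hy σ

theorem gsp_shift (Y : Multiplicative (ι → ℤ) →* Module.End R V) (g : κ → V) (e : κ → ℤ)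
    (d u : ℤ) (σ : Finset ι) (a : ι) (ha : a ∈ σ) (y : V) (hy : y ∈ gsp R Y g e d σ) :
    Y (Multiplicative.ofAdd (Pi.single a u)) y ∈ gsp R Y g e (d + u) σ := by
  change y ∈ Submodule.span R _ at hy
  change _ ∈ Submodule.span R _
  induction hy using Submodule.span_induction with
  | mem v hv =>
    obtain ⟨i, β, h1, h2, rfl⟩ := hv
    refine Submodule.subset_span ⟨i, Pi.single a u + β, fun b hb => ?_, ?_, ?_⟩
    · have h3 : b ≠ a := fun e => hb (e ▸ ha)
      simpa [Pi.single_eq_of_ne h3] using h1 b hb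
    · simp only [Pi.add_apply, sum_add_distrib, sum_pi_single', mem_univ, if_true]
      omega
    · rw [ofAdd_add, map_mul]
      rfl
  | zero => simp
  | add v v' _ _ h h' =>
    rw [map_add]
    exact add_mem h h'
  | smul r v _ h =>
    rw [map_smul]
    exact Submodule.smul_mem _ r h

end Free

variable {k Ω ι J : Type} {n m : ℕ} [CommRing k] [CommRing Ω] [Algebra k Ω] [Fintype J]
  {S : Sys k Ω ι J n} {x : Fin m → Ω} {w : J → ℤ} {ρ : ι → Ωˣ}

theorem lm_shift (P : S.Pol x w ρ) (c : J → ℤ) (u : ℤ) (σ : Finset ι) (a : ι) (ha : a ∈ σ)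
    (p : ℤ) (y : Fm n Ω) (hy : y ∈ S.lm {c} σ p) :
    ((ρ a ^ u : Ωˣ) : Ω) • y ∈ S.lm {c - u • w} σ p := by
  have F := fr k Ω ι J n S
  have h := (lm k Ω ι J n S).shift σ a ha c ((-u) • w) ((ρ a ^ u : Ωˣ) : Ω) (by
    rw [F.mon_zsmul, ← Units.val_mul, zpow_neg, inv_inv, ← mul_zpow]
    exact (lo k Ω ι J n S).le σ a ha
      (T1gX.zpow_mem_of _ _ _ (P.ord a).1 (Or.inr (P.ord a).2))) p y hy
  rwa [neg_smul, ← sub_eq_add_neg] at h

open T1sX in
/-- Serre vanishing for the lattices of logarithmic forms. -/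
theorem serre [IsNoetherianRing k] [Fintype ι] [LinearOrder ι] (hfg : ∀ a, (S.A a).FG)
    (hP : S.Pol x w ρ) (c : J → ℤ) : ∃ d0 : ℤ, ∀ d ≥ d0, ∀ j : ℤ, (n : ℤ) + 2 ≤ j →
      Van (cech 0 : Op (Ch ι (Fm n Ω))) (S.T {c - d • w}) ⊥ j := by
  have : IsNoetherianRing (Algebra.adjoin k (Set.range x)) :=
    isNoetherianRing_of_fg (Subalgebra.fg_def.2 ⟨_, Set.finite_range x, rfl⟩)
  choose r g e H using t1g k Ω ι J n S m x w ρ hfg hP c
  have lm := lm k Ω ι J n S
  have fo := fo Ω n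
  let Y : Multiplicative (ι → ℤ) →* Module.End (Algebra.adjoin k (Set.range x)) (Fm n Ω) :=
    (DistribMulAction.toModuleEnd _ (Fm n Ω) (S := Ω)).comp ((Units.coeHom Ω).comp (mn ρ))
  have hY : ∀ (a : ι) (u : ℤ) (y : Fm n Ω),
      Y (Multiplicative.ofAdd (Pi.single a u)) y = ((ρ a ^ u : Ωˣ) : Ω) • y := fun a u y => by
    rw [← T1gX.prod_single ρ a u]
    rfl
  choose d0 hd0 using fun p : Fin (n + 1) => gr_van Y (g ((p : ℕ) : ℤ)) (e ((p : ℕ) : ℤ))
  obtain ⟨B, hB⟩ := (Set.finite_range d0).bddAbove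
  refine ⟨B, fun d hd j hj => ?_⟩
  have key : ∀ (p : ℤ) (σ : Finset ι) (i : ℤ) (y : Fm n Ω),
      y ∈ (if σ = ∅ then (⊥ : Lat (Fm n Ω)) else deg0 (gsp _ Y (g p) (e p) d σ)) i ↔
        y ∈ S.lm {c - d • w} σ p ∧ (i ≠ 0 → y = 0) := by
    intro p σ i y
    split_ifs with h
    · rw [h, lm.emp, mem_lat_bot, mem_lat_bot]
      exact ⟨fun h => ⟨h, fun _ => h⟩, fun h => h.1⟩
    · obtain ⟨a, ha⟩ := nonempty_iff_ne_empty.2 h
      rw [mem_deg0]
      refine and_congr_left fun _ => ⟨fun h1 => ?_, fun h1 => ?_⟩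
      · have h2 := gsp_shift Y _ _ d (-d) σ a ha y h1
        rw [add_neg_cancel, hY] at h2
        have h3 := lm_shift hP c d σ a ha p _ ((H p σ ⟨a, ha⟩ _).2 h2)
        rwa [smul_smul, ← Units.val_mul, ← zpow_add, add_neg_cancel, zpow_zero, Units.val_one,
          one_smul] at h3
      · have h2 := lm_shift hP _ (-d) σ a ha p y h1
        rw [neg_smul, sub_neg_eq_add, sub_add_cancel] at h2
        have h3 := gsp_shift Y (g p) (e p) 0 d σ a ha _ ((H p σ ⟨a, ha⟩ _).1 h2)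
        rwa [hY, zero_add, smul_smul, ← Units.val_mul, ← zpow_add, add_neg_cancel, zpow_zero,
          Units.val_one, one_smul] at h3
  have cm : ∀ (p : ℤ) (y : Ch ι (Fm n Ω)), ev (pd n p) (cech 0 y) = cech 0 (ev (pd n p) y) :=
    fun p y => DFunLike.congr_fun ((car ι (Fm n Ω)).kos_ev 0 (pd n p) (fun _ => 1) univ
      (Commute.zero_right _) fun _ _ => Commute.one_right _).eq y
  refine (cx (Ch ι (Fm n Ω))).ds (Fin (n + 1)) (Ch ι (Fm n Ω))
    (fun p => ev (pd n ((p : ℕ) : ℤ))) (fun p => ev (pd n ((p : ℕ) : ℤ))) (fun _ => cech 0) (cech 0)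
    (fun p => lat fun σ : Finset ι => if σ = ∅ then ⊥ else
      deg0 (gsp _ Y (g ((p : ℕ) : ℤ)) (e ((p : ℕ) : ℤ)) d σ)) (fun _ => ⊥) _ _
    (fun p => ((p : ℕ) : ℤ)) j (fun y => ⟨univ, ?_⟩) (fun p y => cm _ y)
    (fun p y => (cm _ y).symm) (fun p i y hy => ?_) (fun p i y hy => ?_) (fun p i y hy => ?_)
    (fun p i y hy => ?_) fun p => hd0 p d ((hB ⟨p, rfl⟩).trans hd) _ (by
      have := p.2
      omega)
  · funext σ
    rw [Finset.sum_apply]
    exact sum_pd (y σ)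
  · rw [mem_lat]
    intro σ
    have h := (S.mem_T _ _ _).1 hy σ
    have h' := lm.pure _ _ _ _ h
    rw [key]
    change pd n _ (y σ) ∈ _ ∧ (_ → pd n _ (y σ) = 0)
    by_cases hp : ((p : ℕ) : ℤ) = i - σ.card
    · rw [hp, h']
      exact ⟨h, fun h => (h (by ring)).elim⟩
    · have : pd n ((p : ℕ) : ℤ) (y σ) = 0 := by
        rw [← h', ← op_mul, fo.pd_gr.orth, if_neg hp, op_zero]
      rw [this]
      exact ⟨zero_mem _, fun _ => rfl⟩
  · rw [mem_lat_bot] at hy ⊢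
    rw [hy, map_zero]
  · rw [S.mem_T]
    intro σ
    obtain ⟨h, h'⟩ := (key _ _ _ _).1 ((mem_lat _ _ _).1 hy σ)
    change pd n _ (y σ) ∈ _
    by_cases hp : i - σ.card = ((p : ℕ) : ℤ)
    · rw [hp, lm.pure _ _ _ _ h]
      exact h
    · rw [h' fun h => hp (by linarith), map_zero]
      exact zero_mem _
  · rw [mem_lat_bot] at hy ⊢
    rw [hy, map_zero]

end Pool.Agent.MP_ee8c61_ag.KV59
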