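import Pool.Agent.MP_ee8c61_ag.KV59.Di

/-! The vanishing theorem over the complex numbers. -/

namespace Pool.Agent.MP_ee8c61_ag.KV59

open Finset H59 H59.Sys

/-- The scalar `t` kills the cohomology in degree `j`. -/
def Kill {R G : Type} [CommRing R] [AddCommGroup G] [Module R G] (t : R) (D : Op G) (L : Lat G)
    (j : ℤ) : Prop := ∀ x ∈ L j, D x = 0 → ∃ y ∈ L (j - 1), t • x = D y

theorem nak {R G G' : Type} [CommRing R] [AddCommGroup G] [Module R G] [AddCommGroup G'] (ℓ : ℕ)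
    (φ : G →+ G') (D : Op G) (D' : Op G') (L : Lat G) (M : Lat G') (j : ℤ) (hP : Pair D L ⊥)
    (hD : Lin R D) (hL : Cl R L) (hφ : ∀ x, φ (D x) = D' (φ x)) (h1 : ∀ x ∈ L j, φ x ∈ M j)
    (h2 : ∀ y ∈ M (j - 1), ∃ x ∈ L (j - 1), φ x = y)
    (h3 : ∀ x ∈ L j, φ x = 0 → ∃ x' ∈ L j, x = ℓ • x') (h4 : ∀ x : G, ℓ • x = 0 → x = 0)
    (hF : FG R D L ⊥ j) (hV : Van D' M ⊥ j) : ∃ r : R, Kill (1 + ℓ * r) D L j := by
  obtain ⟨s, hs, hF⟩ := hF
  let Z : Submodule R G :=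
    { carrier := {x | x ∈ L j ∧ D x = 0}
      add_mem' := fun ha hb => ⟨add_mem ha.1 hb.1, by rw [map_add, ha.2, hb.2, add_zero]⟩
      zero_mem' := ⟨zero_mem _, map_zero _⟩
      smul_mem' := fun c x hx => ⟨hL _ c x hx.1, by rw [hD, hx.2, smul_zero]⟩ }
  let B : Submodule R G :=
    { carrier := {x | ∃ y ∈ L (j - 1), x = D y}
      add_mem' := by
        rintro _ _ ⟨a, ha, rfl⟩ ⟨b, hb, rfl⟩
        exact ⟨a + b, add_mem ha hb, (map_add _ _ _).symm⟩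
      zero_mem' := ⟨0, zero_mem _, (map_zero _).symm⟩
      smul_mem' := by
        rintro c _ ⟨a, ha, rfl⟩
        exact ⟨c • a, hL _ c a ha, (hD c a).symm⟩ }
  let W := Submodule.span R (s : Set G)
  have hW : W ≤ Z := Submodule.span_le.2 fun x hx => ⟨(hs x hx).1, (hs x hx).2⟩
  have hZ : Z ≤ B ⊔ W := fun x hx => by
    obtain ⟨y, hy, w, hw, h⟩ := hF x hx.1 hx.2
    have : x = D y + w := by
      rw [mem_lat_bot] at h
      rw [← sub_eq_zero, ← h]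
      abel
    rw [this]
    exact Submodule.add_mem_sup ⟨y, hy, rfl⟩ hw
  have key : W ≤ B ⊔ Ideal.span {(ℓ : R)} • W := fun x hx => by
    obtain ⟨y', hy', h⟩ := hV (φ x) (h1 x (hW hx).1) (by rw [← hφ, (hW hx).2, map_zero]; simp)
    obtain ⟨y, hy, rfl⟩ := h2 y' hy'
    rw [mem_lat_bot, ← hφ, ← map_sub] at h
    obtain ⟨x', hx', e⟩ := h3 _ (sub_mem (hW hx).1 (hP.stp j hy)) h
    have hz : x' ∈ Z := ⟨hx', h4 _ (by rw [← map_nsmul, ← e, map_sub, (hW hx).2, hP.dd', sub_zero])⟩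
    obtain ⟨b, hb, w, hw, rfl⟩ := Submodule.mem_sup.1 (hZ hz)
    have : x = (D y + ℓ • b) + (ℓ : R) • w := by
      rw [Nat.cast_smul_eq_nsmul, add_assoc, ← smul_add, ← e]
      abel
    rw [this]
    exact Submodule.add_mem_sup (add_mem ⟨y, hy, rfl⟩ (nsmul_mem hb _))
      (Submodule.smul_mem_smul (Ideal.mem_span_singleton_self _) hw)
  obtain ⟨r, hr, hrW⟩ := Submodule.exists_sub_one_mem_and_smul_le_of_fg_of_le_sup
    (Submodule.fg_span s.finite_toSet) le_rfl key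
  obtain ⟨r', e⟩ := Ideal.mem_span_singleton.1 hr
  refine ⟨r', fun x hx hd => ?_⟩
  obtain ⟨b, hb, w, hw, rfl⟩ := Submodule.mem_sup.1 (hZ ⟨hx, hd⟩)
  rw [← e, add_sub_cancel, smul_add]
  exact add_mem (B.smul_mem r hb) (hrW (Submodule.smul_mem_pointwise_smul w r W hw))

section O

variable {O F Ω ι J : Type} {n m : ℕ} (ℓ : ℕ) [Fact ℓ.Prime] [CommRing O] [Algebra ℤ_[ℓ] O]
  [CommRing F] [Algebra (ZMod ℓ) F] [CommRing Ω] [Algebra ℂ Ω] [Fintype J] [Fintype ι]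
  [LinearOrder ι] (SO : Sys ℤ_[ℓ] O ι J n)

open TrOX in
theorem trO (SF : Sys (ZMod ℓ) F ι J n) (rd : O →+* F) (x : Fin m → O) (w : J → ℤ) (ρ : ι → Oˣ)
    (c : J → ℤ) (hr : RedOK ℓ SO SF rd) (hfg : ∀ a, (SO.A a).FG) (hp : SO.Pol x w ρ) (j : ℤ)
    (hv : Van (cech 0 : Op (Ch ι (Fm n F))) (SF.T {c}) ⊥ j) :
    ∃ p : MvPolynomial (Fin m) ℤ_[ℓ],
      Kill (MvPolynomial.aeval x (1 + (ℓ : MvPolynomial (Fin m) ℤ_[ℓ]) * p))
        (cech 0 : Op (Ch ι (Fm n O))) (SO.T {c}) j := by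
  have LO := lm _ _ _ _ _ SO
  have pr := LO.pair 0 {c} ∅ (mul_zero _) (fun _ h => absurd h (notMem_empty _))
    fun _ _ _ _ _ => zero_mem _
  rw [LO.T_none] at pr
  have hA : ∀ a, Algebra.adjoin ℤ_[ℓ] (Set.range x) ≤ SO.A a := fun a =>
    Algebra.adjoin_le (by rintro _ ⟨l, rfl⟩; exact hp.x_mem a l)
  obtain ⟨⟨r, hr'⟩, h⟩ := nak (R := Algebra.adjoin ℤ_[ℓ] (Set.range x)) ℓ
    (up (up (rd : O →+ F))) _ _ _ _ j pr (fun a γ => LO.lin0 a γ)
    (fun i a γ hγ => LO.mu_T _ (a : O) (fun b => hA b a.2) _ _ hγ)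
    ((car _ _).up_kos _ _ _ _ _ _ _ (fun _ => map_zero _) fun _ _ _ => rfl)
    (lat_map _ ((hm _ _ _ _ _ _ _ SO SF rd hr.hom).lm c) j)
    (lat_onto _ (fun σ p => (redL _ _ _ _ _ _ SO SF rd hr c σ p).1) _)
    (lat_ker _ ℓ (fun σ p => (redL _ _ _ _ _ _ SO SF rd hr c σ p).2) j)
    (fun γ e => funext fun σ => funext fun τ =>
      hr.tf _ ((nsmul_eq_mul ℓ _).symm.trans (congrFun (congrFun e σ) τ)))
    (t1s _ _ _ _ _ SO m x w ρ hfg hp c j) hv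
  obtain ⟨p, rfl⟩ := (Algebra.adjoin_range_eq_range_aeval _ x).le hr'
  refine ⟨p, fun γ h1 h2 => ?_⟩
  obtain ⟨y, h3, h4⟩ := h γ h1 h2
  refine ⟨y, h3, Eq.trans ?_ h4⟩
  rw [map_add, map_one, map_mul, map_natCast]
  rfl

open TrCX in
theorem trC (S : Sys ℂ Ω ι J n) (ψ : ℤ_[ℓ] →+* ℂ) (ex : O →+* Ω) (c : J → ℤ)
    (h : ExtOK ℓ SO S ψ ex) (j : ℤ) (t : O)
    (hV : Kill t (cech 0 : Op (Ch ι (Fm n O))) (SO.T {c}) j) :
    Kill (ex t) (cech 0 : Op (Ch ι (Fm n Ω))) (S.T {c}) j := by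
  have LO := lm _ O ι J n SO
  have LS := lm _ Ω ι J n S
  have H := hm _ O _ Ω ι J n SO S ex h.hom
  obtain ⟨φ, hφ0⟩ : ∃ φ : Ch ι (Fm n O) →+ Ch ι (Fm n Ω), φ = up (up (ex : O →+ Ω)) := ⟨_, rfl⟩
  have hφ : ∀ (a : ℤ_[ℓ]) y, φ (a • y) = ψ a • φ y := fun a y => by
    subst hφ0
    funext σ s
    change ex (a • y σ s) = ψ a • ex (y σ s)
    rw [Algebra.smul_def, Algebra.smul_def, map_mul, h.alg]
  have ht : ∀ y, φ (t • y) = ex t • φ y := fun y => by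
    subst hφ0
    funext σ s
    exact map_mul ex t (y σ s)
  have hD : ∀ y, φ ((cech 0 : Op (Ch ι (Fm n O))) y) = (cech 0 : Op (Ch ι (Fm n Ω))) (φ y) :=
    hφ0 ▸ (car ι (Fm n O)).up_kos (Fm n Ω) (up (ex : O →+ Ω)) 0 0 (fun _ => 1) (fun _ => 1) univ
      (fun _ => map_zero _) fun _ _ _ => rfl
  have lD : ∀ (a : ℂ) y, (cech 0 : Op (Ch ι (Fm n Ω))) (a • y) = a • (cech 0 : Op _) y :=
    fun a y => by rw [← algebraMap_smul Ω, LS.lin0, algebraMap_smul]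
  intro y hy h0
  obtain ⟨q', c', g, e⟩ := Submodule.mem_span_set'.1
    (span_lat _ _ _ (extL O Ω ι J n ℓ SO S ψ ex h c) j y hy)
  choose x hx hg0 using fun i => (g i).2
  have hg : ∀ i, φ (x i) = g i := hφ0 ▸ hg0
  obtain ⟨q, b, r, hb, hc⟩ := ExtX.regroup ψ h.inj c'
  have e' : y = ∑ l, b l • φ (∑ i, r i l • x i) := by
    simp only [← e, ← hg, hc, map_sum, hφ, sum_smul, smul_sum, smul_smul, mul_comm]
    exact sum_comm
  have z0 : ∑ l, b l • φ ((cech 0 : Op (Ch ι (Fm n O))) (∑ i, r i l • x i)) = 0 := by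
    rw [← h0, e', map_sum]
    exact sum_congr rfl fun l _ => by rw [lD, hD]
  have z : ∀ l, (cech 0 : Op (Ch ι (Fm n O))) (∑ i, r i l • x i) = 0 := fun l => by
    funext σ s
    refine congrFun (h.ld q b
      (fun l => (cech 0 : Op (Ch ι (Fm n O))) (∑ i, r i l • x i) σ s) hb ?_) l
    subst hφ0
    simpa [Finset.sum_apply] using congrFun (congrFun z0 σ) s
  choose u hu hu' using fun l => hV (∑ i, r i l • x i) (sum_mem fun i _ => by
    rw [← algebraMap_smul O]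
    exact LO.mu_T _ _ (fun a => (SO.A a).algebraMap_mem _) _ _ (hx i)) (z l)
  refine ⟨∑ l, b l • φ (u l), sum_mem fun l _ => ?_, ?_⟩
  · rw [← algebraMap_smul Ω]
    exact LS.mu_T _ _ (fun a => (S.A a).algebraMap_mem _) _ _
      (hφ0 ▸ TrOX.lat_map _ (H.lm c) _ _ (hu l))
  · rw [e', map_sum, smul_sum]
    exact sum_congr rfl fun l _ => by rw [lD, ← hD, ← hu', ht, smul_comm]

end O

/-- The vanishing theorem. -/
theorem dv {Ω ι J : Type} {n m : ℕ} [CommRing Ω] [IsDomain Ω] [Algebra ℂ Ω] [Fintype J]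
    [Fintype ι] [LinearOrder ι] [Nonempty ι] (S : Sys ℂ Ω ι J n) (x : Fin m → Ω) (w : J → ℤ)
    (ρ : ι → Ωˣ) (μ : ℕ) (good : S.Good) (pol : S.Pol x w ρ) (hμ : 0 < μ) (j : ℤ)
    (hj : (n : ℤ) + 2 ≤ j) : Van (cech 0 : Op (Ch ι (Fm n Ω))) (S.T {1 - cl w μ}) ⊥ j := by
  have LS := lm _ Ω ι J n S
  have xA : ∀ (p : MvPolynomial (Fin m) ℂ) a, MvPolynomial.aeval x p ∈ S.A a := fun p a =>
    (Algebra.adjoin_le (by rintro _ ⟨l, rfl⟩; exact pol.x_mem a l) :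
      Algebra.adjoin ℂ (Set.range x) ≤ S.A a) ((Algebra.adjoin_range_eq_range_aeval _ x).ge ⟨p, rfl⟩)
  let I : Ideal (MvPolynomial (Fin m) ℂ) :=
    { carrier := {p | Kill (MvPolynomial.aeval x p) (cech 0 : Op (Ch ι (Fm n Ω)))
        (S.T {1 - cl w μ}) j}
      zero_mem' := fun y _ _ => ⟨0, zero_mem _, by simp⟩
      add_mem' := fun {p q} hp hq y h1 h2 => by
        obtain ⟨u, h3, h4⟩ := hp y h1 h2
        obtain ⟨u', h5, h6⟩ := hq y h1 h2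
        exact ⟨u + u', add_mem h3 h5, by rw [map_add, add_smul, map_add, h4, h6]⟩
      smul_mem' := fun p q hq y h1 h2 => by
        obtain ⟨u, h3, h4⟩ := hq y h1 h2
        exact ⟨MvPolynomial.aeval x p • u, LS.mu_T _ _ (xA p) _ _ h3, by
          rw [smul_eq_mul, map_mul, mul_smul, h4, LS.lin0]⟩ }
  have hI : I = ⊤ := by
    by_contra hI
    obtain ⟨P, hP, hle⟩ := I.exists_le_maximal hI
    obtain ⟨x0, rfl⟩ := MvPolynomial.isMaximal_iff_eq_vanishingIdeal_singleton.1 hP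
    obtain ⟨ℓ, _, O, F, _, _, _, _, SO, SF, ψ, ex, rd, xO, x0O, ρO, ρF, δ, h1, h2, h3, h4, h5, h6,
      h7, h8, h9, h10⟩ := rowSpread Ω ι J n m S x w ρ x0 n good pol
    have := Classical.inhabited_of_nonempty' (α := ι)
    obtain ⟨p, hp⟩ := trO ℓ SO SF rd xO w ρO _ h3 h6 h7 j
      (dvl ℓ SF _ w ρF μ δ h1 hμ h8 h9 h10 j hj)
    have h11 := trC ℓ SO S ψ ex _ h2 j _ hp
    have e1 : ∀ q : MvPolynomial (Fin m) ℤ_[ℓ], ex (MvPolynomial.aeval xO q) =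
        MvPolynomial.aeval x (MvPolynomial.map ψ q) ∧
        MvPolynomial.aeval x0 (MvPolynomial.map ψ q) = ψ (MvPolynomial.eval x0O q) := fun q => by
      induction q using MvPolynomial.induction_on with
      | C a => simp [h2.alg]
      | add p q hp hq => simp only [map_add, hp.1, hp.2, hq.1, hq.2, and_self]
      | mul_X p i hp => simp only [map_mul, hp.1, hp.2, MvPolynomial.map_X, MvPolynomial.aeval_X,
          MvPolynomial.eval_X, h4, h5, and_self]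
    rw [(e1 _).1] at h11
    have h12 := (MvPolynomial.mem_vanishingIdeal_singleton_iff _ _).1 (hle h11)
    rw [(e1 _).2, map_eq_zero_iff _ h2.inj, map_add, map_one, map_mul, map_natCast] at h12
    exact PadicInt.irreducible_p.not_isUnit
      (IsUnit.of_mul_eq_one (-MvPolynomial.eval x0O p) (by linear_combination -h12))
  intro y h1 h2
  obtain ⟨u, h3, h4⟩ := (show (1 : MvPolynomial (Fin m) ℂ) ∈ I from hI ▸ trivial) y h1 h2
  exact ⟨u, h3, (mem_lat_bot _ _).2 (by rw [← h4, map_one, one_smul, sub_self])⟩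

end Pool.Agent.MP_ee8c61_ag.KV59
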